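import Mathlib

/-! The vertex- and edge-colouring of `K_28` behind the counterexample of MP_114a18_co. -/

set_option autoImplicit false

namespace Pool.Agent.GallaiRamsey

/-- The edge-colouring of `K_28`: the first 11 vertices carry the cycle `C_11` in colour `2` and its
complement in colour `1`, the last 17 vertices carry the circular clique `K_{17/5}` in colour `2` and
its complement in colour `0`, all other edges have colour `2`. -/
def col (a b : ℕ) : Fin 3 :=
  if a < 11 then
    if b < 11 then
      (if (a + 11 - b) % 11 = 1 ∨ (a + 11 - b) % 11 = 10 then 2 else 1)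
    else 2
  else
    if b < 11 then 2
    else (if 5 ≤ (a + 17 - b) % 17 ∧ (a + 17 - b) % 17 ≤ 12 then 2 else 0)

theorem col_symm : ∀ a b : Fin 28, col a b = col b a := by decide +kernel

/-- The edge-colouring as a function on unordered pairs. -/
def ecol : Sym2 (Fin 28) → Fin 3 := Sym2.lift ⟨fun a b => col a b, col_symm⟩

theorem ecol_mk (a b : Fin 28) : ecol s(a, b) = col a b := rfl

/-- The vertex-colouring. -/
def vcol (a : Fin 28) : Fin 3 := if (a : ℕ) < 11 then 0 else 1

theorem ecol_ne_vcol : ∀ a b : Fin 28, a ≠ b → ecol s(a, b) ≠ vcol a ∧ ecol s(a, b) ≠ vcol b := by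
  have h : ∀ a b : Fin 28, a ≠ b → col a b ≠ vcol a ∧ col a b ≠ vcol b := by decide +kernel
  exact h

theorem ecol_gallai : ∀ x y z : Fin 28, x ≠ y → y ≠ z → x ≠ z →
    ¬ (ecol s(x, y) ≠ ecol s(y, z) ∧ ecol s(y, z) ≠ ecol s(x, z) ∧ ecol s(x, y) ≠ ecol s(x, z)) := by
  have h : ∀ x y z : Fin 28, x ≠ y → y ≠ z → x ≠ z →
    ¬ (col x y ≠ col y z ∧ col y z ≠ col x z ∧ col x y ≠ col x z) := by decide +kernel
  exact h

end Pool.Agent.GallaiRamsey
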