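import Pool.Agent.GallaiRamsey.Zhu
import Pool.Agent.GallaiRamsey.Defs

/-! Common sources of finite families of graphs, and the two graphs `F₁`, `F₂`. -/

set_option autoImplicit false

namespace Pool.Agent.GallaiRamsey

/-- the first projection of the categorical product -/
def tensorFst {V V' : Type} (G : SimpleGraph V) (G' : SimpleGraph V') : tensorGraph G G' →g G :=
  ⟨Prod.fst, fun h => h.1⟩

/-- the second projection of the categorical product -/
def tensorSnd {V V' : Type} (G : SimpleGraph V) (G' : SimpleGraph V') : tensorGraph G G' →g G' :=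
  ⟨Prod.snd, fun h => h.2⟩

/-- Every family of graphs on `Fin n` with a property that is preserved by categorical products
(and that some finite graph has) has a common source with the same property. -/
theorem exists_common {n : ℕ}
    (P : ∀ (V : Type) [Fintype V] [DecidableEq V], SimpleGraph V → Prop)
    (hbase : ∃ G : SimpleGraph (Fin n), P (Fin n) G)
    (ht : ∀ (V V' : Type) [Fintype V] [DecidableEq V] [Fintype V'] [DecidableEq V']
      (G : SimpleGraph V) (G' : SimpleGraph V'), P V G → P V' G' → P (V × V') (tensorGraph G G')) :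
    ∃ (V : Type) (_ : Fintype V) (_ : DecidableEq V) (F : SimpleGraph V), P V F ∧
      ∀ G : SimpleGraph (Fin n), P (Fin n) G → Nonempty (F →g G) := by
  classical
  have key : ∀ s : Finset (SimpleGraph (Fin n)), (∀ G ∈ s, P (Fin n) G) →
      ∃ (V : Type) (_ : Fintype V) (_ : DecidableEq V) (F : SimpleGraph V), P V F ∧
        ∀ G ∈ s, Nonempty (F →g G) := by
    intro s
    induction s using Finset.induction_on with
    | empty =>
      intro _
      obtain ⟨G, hG⟩ := hbase
      exact ⟨Fin n, inferInstance, inferInstance, G, hG, fun _ h => absurd h (Finset.notMem_empty _)⟩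
    | insert G₀ s _ ih =>
      intro hs
      obtain ⟨V, i1, i2, F, hF, hFs⟩ := ih fun G hG => hs G (Finset.mem_insert_of_mem hG)
      refine ⟨V × Fin n, inferInstance, inferInstance, tensorGraph F G₀,
        ht _ _ F G₀ hF (hs G₀ (Finset.mem_insert_self _ _)), ?_⟩
      intro G hG
      rcases Finset.mem_insert.1 hG with rfl | hG
      · exact ⟨tensorSnd F G⟩
      · obtain ⟨f⟩ := hFs G hG
        exact ⟨f.comp (tensorFst F G₀)⟩
  have hfin : {G : SimpleGraph (Fin n) | P (Fin n) G}.Finite := Set.toFinite _
  obtain ⟨V, i1, i2, F, hF, hFs⟩ := key hfin.toFinset fun G hG => by simpa using hG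
  exact ⟨V, i1, i2, F, hF, fun G hG => hFs G (by simpa using hG)⟩

end Pool.Agent.GallaiRamsey
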