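import Mathlib

/-! Hoffman certificates for graphs, their behaviour under the categorical (tensor) product and
the obstruction to homomorphisms given by strict vector colourings. -/

set_option autoImplicit false

open Matrix
open scoped Kronecker

namespace Pool.Agent.GallaiRamsey

/-- The categorical product of two graphs. -/
def tensorGraph {V V' : Type} (G : SimpleGraph V) (G' : SimpleGraph V') :
    SimpleGraph (V × V') where
  Adj p q := G.Adj p.1 q.1 ∧ G'.Adj p.2 q.2
  symm := ⟨fun _ _ h => ⟨h.1.symm, h.2.symm⟩⟩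
  loopless := ⟨fun _ h => G.loopless.irrefl _ h.1⟩

/-- A Hoffman certificate of level `T`. -/
def Cert (T : ℝ) {V : Type} [Fintype V] [DecidableEq V] (G : SimpleGraph V) : Prop :=
  ∃ W : Matrix V V ℝ, (∀ x y, ¬ G.Adj x y → W x y = 0) ∧ ((1 : Matrix V V ℝ) + W).PosSemidef ∧
    ((T - 1) • (1 : Matrix V V ℝ) - W).PosSemidef ∧ ∃ u : V → ℝ, u ≠ 0 ∧ W *ᵥ u = (T - 1) • u

theorem Cert.tensor {T : ℝ} (hT : 2 ≤ T) {V V' : Type} [Fintype V] [DecidableEq V] [Fintype V']
    [DecidableEq V'] {G : SimpleGraph V} {G' : SimpleGraph V'} (h : Cert T G) (h' : Cert T G') :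
    Cert T (tensorGraph G G') := by
  obtain ⟨W, hW, hW1, hW2, u, hu, hWu⟩ := h
  obtain ⟨W', hW', hW1', hW2', u', hu', hWu'⟩ := h'
  obtain ⟨s, hs⟩ : ∃ s : ℝ, s = T - 1 := ⟨_, rfl⟩
  rw [← hs] at hW2 hWu hW2' hWu'
  unfold Cert
  rw [← hs]
  have hs1 : 1 ≤ s := by linarith
  have hs0 : 0 < s := by linarith
  have hplus : (s • (1 : Matrix V V ℝ) + W).PosSemidef := by
    have : s • (1 : Matrix V V ℝ) + W = (s - 1) • (1 : Matrix V V ℝ) + (1 + W) := by
      rw [sub_smul, one_smul]; abel
    rw [this]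
    exact (Matrix.PosSemidef.one.smul (by linarith)).add hW1
  have hplus' : (s • (1 : Matrix V' V' ℝ) + W').PosSemidef := by
    have : s • (1 : Matrix V' V' ℝ) + W' = (s - 1) • (1 : Matrix V' V' ℝ) + (1 + W') := by
      rw [sub_smul, one_smul]; abel
    rw [this]
    exact (Matrix.PosSemidef.one.smul (by linarith)).add hW1'
  refine ⟨s⁻¹ • (W ⊗ₖ W'), ?_, ?_, ?_, fun p => u p.1 * u' p.2, ?_, ?_⟩
  · rintro ⟨x, a⟩ ⟨y, b⟩ hadj
    by_cases hx : G.Adj x y
    · have hb : ¬ G'.Adj a b := fun hb => hadj ⟨hx, hb⟩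
      simp [Matrix.smul_apply, Matrix.kroneckerMap_apply, hW' a b hb]
    · simp [Matrix.smul_apply, Matrix.kroneckerMap_apply, hW x y hx]
  · have key : (1 : Matrix (V × V') (V × V') ℝ) + s⁻¹ • (W ⊗ₖ W') =
        (s⁻¹ * (s / (1 + s))) • ((1 + W) ⊗ₖ (1 + W')) +
        (s⁻¹ * (1 / (1 + s))) •
          ((s • (1 : Matrix V V ℝ) - W) ⊗ₖ (s • (1 : Matrix V' V' ℝ) - W')) := by
      rw [← Matrix.one_kronecker_one]
      ext ⟨x, a⟩ ⟨y, b⟩
      simp only [Matrix.add_apply, Matrix.smul_apply, Matrix.kroneckerMap_apply, Matrix.sub_apply,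
        smul_eq_mul]
      have h1s : (1 + s) ≠ 0 := by positivity
      field_simp
      ring
    rw [key]
    exact ((hW1.kronecker hW1').smul (by positivity)).add
      ((hW2.kronecker hW2').smul (by positivity))
  · have key : s • (1 : Matrix (V × V') (V × V') ℝ) - s⁻¹ • (W ⊗ₖ W') =
        (s⁻¹ * (1 / 2)) • ((s • (1 : Matrix V V ℝ) - W) ⊗ₖ (s • (1 : Matrix V' V' ℝ) + W')) +
        (s⁻¹ * (1 / 2)) •
          ((s • (1 : Matrix V V ℝ) + W) ⊗ₖ (s • (1 : Matrix V' V' ℝ) - W')) := by
      rw [← Matrix.one_kronecker_one]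
      ext ⟨x, a⟩ ⟨y, b⟩
      simp only [Matrix.add_apply, Matrix.smul_apply, Matrix.kroneckerMap_apply, Matrix.sub_apply,
        smul_eq_mul]
      field_simp
      ring
    rw [key]
    exact ((hW2.kronecker hplus').smul (by positivity)).add
      ((hplus.kronecker hW2').smul (by positivity))
  · intro h0
    obtain ⟨x, hx⟩ := Function.ne_iff.1 hu
    obtain ⟨a, ha⟩ := Function.ne_iff.1 hu'
    have := congrFun h0 (x, a)
    simp only [Pi.zero_apply, mul_eq_zero] at this
    rcases this with h | h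
    · exact hx (by simpa using h)
    · exact ha (by simpa using h)
  · funext ⟨x, a⟩
    have h1 := congrFun hWu x
    have h2 := congrFun hWu' a
    simp only [Matrix.mulVec, dotProduct, Pi.smul_apply, smul_eq_mul] at h1 h2
    simp only [Matrix.mulVec, dotProduct, Pi.smul_apply, smul_eq_mul, Matrix.smul_apply,
      Matrix.kroneckerMap_apply]
    have h3 : ∑ p : V × V', s⁻¹ * (W x p.1 * W' a p.2) * (u p.1 * u' p.2) =
        s⁻¹ * ((∑ y, W x y * u y) * (∑ b, W' a b * u' b)) := by
      rw [Finset.sum_mul_sum, Fintype.sum_prod_type, Finset.mul_sum]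
      refine Finset.sum_congr rfl fun y _ => ?_
      rw [Finset.mul_sum]
      refine Finset.sum_congr rfl fun b _ => ?_
      ring
    rw [h3, h1, h2]
    field_simp

/-- A strict vector colouring with fewer than `T` colours obstructs homomorphisms from graphs with
a certificate of level `T`. -/
theorem Cert.noHom {T : ℝ} {V Z : Type} [Fintype V] [DecidableEq V] {G : SimpleGraph V}
    (h : Cert T G) {H : SimpleGraph Z} (K : Matrix Z Z ℝ) (hK : K.PosSemidef)
    (hd : ∀ z, K z z < T - 1) (he : ∀ z w, H.Adj z w → K z w = -1) (φ : G →g H) : False := by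
  obtain ⟨W, hW, hW1, -, u, hu, hWu⟩ := h
  have hps : (((1 : Matrix V V ℝ) + W) ⊙ (K.submatrix φ φ)).PosSemidef :=
    hW1.hadamard (hK.submatrix φ)
  have h0 := hps.dotProduct_mulVec_nonneg u
  have hentry : ∀ x y, (((1 : Matrix V V ℝ) + W) ⊙ (K.submatrix φ φ)) x y =
      (if x = y then K (φ x) (φ x) else 0) - W x y := by
    intro x y
    simp only [Matrix.hadamard_apply, Matrix.add_apply, Matrix.submatrix_apply, Matrix.one_apply]
    by_cases hxy : x = y
    · subst hxy
      have : W x x = 0 := hW x x (G.loopless.irrefl x)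
      simp [this]
    · by_cases hadj : G.Adj x y
      · rw [he _ _ (φ.map_adj hadj)]
        simp [hxy]
      · simp [hxy, hW x y hadj]
  have h1 : star u ⬝ᵥ ((((1 : Matrix V V ℝ) + W) ⊙ (K.submatrix φ φ)) *ᵥ u) =
      ∑ x, K (φ x) (φ x) * u x ^ 2 - (T - 1) * ∑ x, u x ^ 2 := by
    have h2 : ∀ x, ((((1 : Matrix V V ℝ) + W) ⊙ (K.submatrix φ φ)) *ᵥ u) x =
        K (φ x) (φ x) * u x - (T - 1) * u x := by
      intro x
      have h3 := congrFun hWu x
      simp only [Matrix.mulVec, dotProduct, Pi.smul_apply, smul_eq_mul] at h3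
      simp only [Matrix.mulVec, dotProduct, hentry, sub_mul, Finset.sum_sub_distrib, h3]
      simp
    simp only [dotProduct, h2, star_trivial, Finset.mul_sum]
    rw [← Finset.sum_sub_distrib]
    refine Finset.sum_congr rfl fun x _ => ?_
    ring
  rw [h1] at h0
  obtain ⟨x0, hx0⟩ := Function.ne_iff.1 hu
  have h4 : ∑ x, K (φ x) (φ x) * u x ^ 2 < ∑ x, (T - 1) * u x ^ 2 := by
    refine Finset.sum_lt_sum (fun x _ => ?_) ⟨x0, Finset.mem_univ _, ?_⟩
    · exact mul_le_mul_of_nonneg_right (hd _).le (sq_nonneg _)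
    · exact mul_lt_mul_of_pos_right (hd _) (by
        have : u x0 ≠ 0 := by simpa using hx0
        positivity)
  rw [← Finset.mul_sum] at h4
  linarith

/-- Rayleigh quotient: a symmetric matrix has a top eigenvector. -/
theorem exists_top {V : Type} [Fintype V] [DecidableEq V] (P : Matrix V V ℝ)
    (hP : P.IsHermitian) (w : V → ℝ) (hw : w ≠ 0) :
    ∃ (l : ℝ) (u : V → ℝ), u ≠ 0 ∧ P *ᵥ u = l • u ∧ (l • (1 : Matrix V V ℝ) - P).PosSemidef := by
  classical
  have hne : Nonempty V := by
    obtain ⟨x, _⟩ := Function.ne_iff.1 hw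
    exact ⟨x⟩
  obtain ⟨i, -, hi⟩ := Finset.exists_max_image (Finset.univ : Finset V) hP.eigenvalues
    Finset.univ_nonempty
  refine ⟨hP.eigenvalues i, (hP.eigenvectorBasis i).ofLp, ?_, ?_, ?_⟩
  · intro h0
    have h1 : ‖hP.eigenvectorBasis i‖ = 1 := hP.eigenvectorBasis.orthonormal.1 i
    have h2 : hP.eigenvectorBasis i = 0 := by
      ext x
      exact congrFun h0 x
    rw [h2, norm_zero] at h1
    exact zero_ne_one h1
  · exact hP.mulVec_eigenvectorBasis i
  · have hH : (hP.eigenvalues i • (1 : Matrix V V ℝ) - P).IsHermitian := by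
      refine Matrix.IsHermitian.sub ?_ hP
      refine Matrix.IsHermitian.smul ?_ (IsSelfAdjoint.all _)
      exact Matrix.isHermitian_one
    have hspec := hP.spectral_theorem
    have hU : (hP.eigenvectorUnitary : Matrix V V ℝ) *
        star (hP.eigenvectorUnitary : Matrix V V ℝ) = 1 :=
      Unitary.coe_mul_star_self _
    have key : hP.eigenvalues i • (1 : Matrix V V ℝ) - P =
        (hP.eigenvectorUnitary : Matrix V V ℝ) *
          diagonal (fun j => hP.eigenvalues i - hP.eigenvalues j) *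
          (hP.eigenvectorUnitary : Matrix V V ℝ)ᴴ := by
      have h1 : diagonal (fun j => hP.eigenvalues i - hP.eigenvalues j) =
          hP.eigenvalues i • (1 : Matrix V V ℝ) -
            diagonal (RCLike.ofReal ∘ hP.eigenvalues : V → ℝ) := by
        ext a b
        by_cases hab : a = b
        · subst hab; simp
        · simp [hab]
      rw [h1, mul_sub, sub_mul, Matrix.mul_smul, Matrix.mul_one, Matrix.smul_mul,
        ← Matrix.star_eq_conjTranspose, hU]
      congr 1
    rw [key]
    refine Matrix.PosSemidef.mul_mul_conjTranspose_same ?_ _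
    refine Matrix.PosSemidef.diagonal fun j => ?_
    have := hi j (Finset.mem_univ _)
    simpa using this

/-- From a psd matrix with unit diagonal, supported on the edges, with a large Rayleigh quotient,
to a certificate. -/
theorem Cert.of_psd {T : ℝ} (hT : 1 < T) {V : Type} [Fintype V] [DecidableEq V]
    {G : SimpleGraph V} (P : Matrix V V ℝ) (hP : P.PosSemidef) (h1 : ∀ x, P x x = 1)
    (h0 : ∀ x y, x ≠ y → ¬ G.Adj x y → P x y = 0) (w : V → ℝ) (hw : w ≠ 0)
    (hq : T * (w ⬝ᵥ w) ≤ w ⬝ᵥ (P *ᵥ w)) : Cert T G := by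
  obtain ⟨l, u, hu, hPu, hl⟩ := exists_top P hP.isHermitian w hw
  have hww : 0 < w ⬝ᵥ w := by
    have h2 : 0 ≤ w ⬝ᵥ w := by
      simpa using dotProduct_star_self_nonneg w
    have h3 : w ⬝ᵥ w ≠ 0 := by
      intro h
      exact hw (dotProduct_self_eq_zero.1 h)
    exact lt_of_le_of_ne h2 (Ne.symm h3)
  have hTl : T ≤ l := by
    have h2 := hl.dotProduct_mulVec_nonneg w
    rw [Matrix.sub_mulVec, Matrix.smul_mulVec, Matrix.one_mulVec, dotProduct_sub,
      dotProduct_smul, star_trivial, smul_eq_mul] at h2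
    have h3 : T * (w ⬝ᵥ w) ≤ l * (w ⬝ᵥ w) := by linarith
    exact le_of_mul_le_mul_right h3 hww
  have hl1 : 0 < l - 1 := by linarith
  have hr0 : 0 < (T - 1) / (l - 1) := div_pos (by linarith) hl1
  have hr1 : (T - 1) / (l - 1) ≤ 1 := by
    rw [div_le_one hl1]; linarith
  obtain ⟨r, hr⟩ : ∃ r : ℝ, r = (T - 1) / (l - 1) := ⟨_, rfl⟩
  rw [← hr] at hr0 hr1
  have hrl : r * (l - 1) = T - 1 := by
    rw [hr]; field_simp
  refine ⟨r • (P - 1), ?_, ?_, ?_, u, hu, ?_⟩
  · intro x y hxy
    by_cases h : x = y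
    · subst h
      simp [h1]
    · simp [h0 x y h hxy, h]
  · have key : (1 : Matrix V V ℝ) + r • (P - 1) = (1 - r) • (1 : Matrix V V ℝ) + r • P := by
      rw [smul_sub, sub_smul, one_smul]; abel
    rw [key]
    exact (Matrix.PosSemidef.one.smul (by linarith)).add (hP.smul hr0.le)
  · have key : (T - 1) • (1 : Matrix V V ℝ) - r • (P - 1) = r • (l • (1 : Matrix V V ℝ) - P) := by
      rw [← hrl, smul_sub, smul_sub, smul_smul, mul_sub, sub_smul, mul_one]; abel
    rw [key]
    exact hl.smul hr0.le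
  · rw [Matrix.smul_mulVec, Matrix.sub_mulVec, hPu, Matrix.one_mulVec, ← hrl, mul_smul, sub_smul,
      one_smul]

/-- A clique of size at least `T` gives a certificate. -/
theorem Cert.of_clique {T : ℝ} (hT : 1 < T) {V : Type} [Fintype V] [DecidableEq V]
    {G : SimpleGraph V} (S : Finset V) (hS : G.IsClique S) (hc : T ≤ S.card) : Cert T G := by
  classical
  let e : V → ℝ := fun x => if x ∈ S then 1 else 0
  have hpos : 0 < S.card := by
    have : (0 : ℝ) < S.card := by linarith
    exact_mod_cast this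
  have he : e ≠ 0 := by
    obtain ⟨x, hx⟩ := Finset.card_pos.1 hpos
    intro h
    have := congrFun h x
    simp [e, hx] at this
  refine Cert.of_psd hT (Matrix.vecMulVec e e + diagonal (fun x => if x ∈ S then 0 else 1))
    ?_ ?_ ?_ e he ?_
  · refine Matrix.PosSemidef.add ?_ (Matrix.PosSemidef.diagonal fun x => ?_)
    · simpa using Matrix.posSemidef_vecMulVec_self_star e
    · dsimp only; split_ifs <;> norm_num
  · intro x
    by_cases hx : x ∈ S <;> simp [e, hx, Matrix.vecMulVec_apply]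
  · intro x y hxy hadj
    have : ¬ (x ∈ S ∧ y ∈ S) := fun h => hadj (hS h.1 h.2 hxy)
    simp only [Matrix.add_apply, Matrix.vecMulVec_apply, Matrix.diagonal_apply_ne _ hxy, add_zero, e]
    by_cases hx : x ∈ S
    · have hy : y ∉ S := fun hy => this ⟨hx, hy⟩
      simp [hy]
    · simp [hx]
  · have h1 : e ⬝ᵥ e = S.card := by
      simp [dotProduct, e]
    have h2 : (Matrix.vecMulVec e e + diagonal (fun x => if x ∈ S then (0 : ℝ) else 1)) *ᵥ e =
        (S.card : ℝ) • e := by
      funext x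
      rw [Matrix.add_mulVec, Pi.add_apply, Matrix.mulVec_diagonal]
      have h3 : (Matrix.vecMulVec e e *ᵥ e) x = e x * (e ⬝ᵥ e) := by
        simp [Matrix.mulVec, dotProduct, Matrix.vecMulVec_apply, Finset.mul_sum, mul_assoc]
      rw [h3, h1, Pi.smul_apply, smul_eq_mul]
      by_cases hx : x ∈ S <;> simp [e, hx]
    rw [h2, dotProduct_smul, h1, smul_eq_mul]
    exact mul_le_mul_of_nonneg_right hc (by positivity)

end Pool.Agent.GallaiRamsey
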