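import Pool.Agent.GallaiRamsey.Cert

/-! A direct proof of Lovasz' inequality `theta(G) theta(Gᶜ) ≥ n` in the form '`G` or its complement
has a certificate of level `T` whenever `T ^ 2 < n`', by maximising `det P * exp (1ᵀ P 1 / ε)`. -/

set_option autoImplicit false

namespace Pool.Agent.GallaiRamsey

open Finset Matrix

section LogDet

variable {V : Type} [Fintype V] [DecidableEq V]

/-- the quadratic form of a matrix -/
def qf (M : Matrix V V ℝ) (u : V → ℝ) : ℝ := ∑ x, ∑ y, M x y * (u x * u y)

/-- the square of the euclidean norm -/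
def nrm (u : V → ℝ) : ℝ := ∑ x, u x ^ 2

omit [DecidableEq V] in
theorem qf_eq (M : Matrix V V ℝ) (u : V → ℝ) : u ⬝ᵥ M.mulVec u = qf M u := by
  simp only [dotProduct, mulVec, qf, Finset.mul_sum]
  refine Finset.sum_congr rfl fun x _ => Finset.sum_congr rfl fun y _ => ?_
  ring

omit [DecidableEq V] in
theorem psd_iff (M : Matrix V V ℝ) :
    M.PosSemidef ↔ (∀ x y, M x y = M y x) ∧ ∀ u, 0 ≤ qf M u := by
  rw [posSemidef_iff_dotProduct_mulVec]
  constructor
  · rintro ⟨h1, h2⟩
    refine ⟨fun x y => ?_, fun u => ?_⟩
    · have := h1.apply x y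
      simpa using this.symm
    · have := h2 u
      rw [star_trivial, qf_eq] at this
      exact this
  · rintro ⟨h1, h2⟩
    refine ⟨?_, fun u => ?_⟩
    · ext x y
      simp only [conjTranspose_apply, star_trivial]
      exact h1 y x
    · rw [star_trivial, qf_eq]
      exact h2 u

omit [DecidableEq V] in
theorem nrm_nonneg (u : V → ℝ) : 0 ≤ nrm u := Finset.sum_nonneg fun x _ => sq_nonneg _

omit [DecidableEq V] in
theorem nrm_pos {u : V → ℝ} (hu : u ≠ 0) : 0 < nrm u := by
  obtain ⟨x, hx⟩ := Function.ne_iff.1 hu
  have h1 : u x ^ 2 ≤ nrm u :=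
    Finset.single_le_sum (f := fun y => u y ^ 2) (fun y _ => sq_nonneg _) (Finset.mem_univ x)
  have h2 : 0 < u x ^ 2 := by
    have : u x ≠ 0 := hx
    positivity
  linarith

omit [DecidableEq V] in
theorem qf_smul (M : Matrix V V ℝ) (a : ℝ) (u : V → ℝ) : qf M (a • u) = a ^ 2 * qf M u := by
  simp only [qf, Finset.mul_sum, Pi.smul_apply, smul_eq_mul]
  refine Finset.sum_congr rfl fun x _ => Finset.sum_congr rfl fun y _ => ?_
  ring

omit [DecidableEq V] in
theorem nrm_smul (a : ℝ) (u : V → ℝ) : nrm (a • u) = a ^ 2 * nrm u := by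
  simp only [nrm, Finset.mul_sum, Pi.smul_apply, smul_eq_mul]
  refine Finset.sum_congr rfl fun x _ => ?_
  ring

omit [DecidableEq V] in
theorem qf_add (M N : Matrix V V ℝ) (u : V → ℝ) : qf (M + N) u = qf M u + qf N u := by
  simp only [qf, Matrix.add_apply]
  rw [← Finset.sum_add_distrib]
  refine Finset.sum_congr rfl fun x _ => ?_
  rw [← Finset.sum_add_distrib]
  refine Finset.sum_congr rfl fun y _ => ?_
  ring

omit [DecidableEq V] in
theorem qf_smulM (a : ℝ) (M : Matrix V V ℝ) (u : V → ℝ) : qf (a • M) u = a * qf M u := by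
  simp only [qf, Matrix.smul_apply, smul_eq_mul, Finset.mul_sum]
  refine Finset.sum_congr rfl fun x _ => Finset.sum_congr rfl fun y _ => ?_
  ring

theorem qf_one (u : V → ℝ) : qf (1 : Matrix V V ℝ) u = nrm u := by
  simp only [qf, nrm]
  refine Finset.sum_congr rfl fun x _ => ?_
  rw [Finset.sum_eq_single x]
  · rw [Matrix.one_apply_eq]; ring
  · intro y _ hy
    rw [Matrix.one_apply_ne (Ne.symm hy)]; ring
  · intro h; exact absurd (Finset.mem_univ x) h

omit [DecidableEq V] in
/-- the minimum of a quadratic form on the unit sphere -/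
theorem sphere_min [Nonempty V] (M : Matrix V V ℝ) :
    ∃ u : V → ℝ, nrm u = 1 ∧ ∀ v, qf M u * nrm v ≤ qf M v := by
  classical
  have hcn : Continuous (fun u : V → ℝ => nrm u) := by
    unfold nrm
    fun_prop
  have hcq : Continuous (fun u : V → ℝ => qf M u) := by
    unfold qf
    fun_prop
  have hK : IsCompact {u : V → ℝ | nrm u = 1} := by
    have hc : IsCompact {u : V → ℝ | ∀ x, u x ∈ Set.Icc (-1 : ℝ) 1} := by
      have := isCompact_univ_pi (fun _ : V => (isCompact_Icc : IsCompact (Set.Icc (-1 : ℝ) 1)))
      convert this using 1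
      ext u
      simp only [Set.mem_pi, Set.mem_univ, forall_true_left, Set.mem_ofPred_eq]
    refine hc.of_isClosed_subset (isClosed_eq hcn continuous_const) ?_
    intro u hu x
    have h1 : u x ^ 2 ≤ nrm u :=
      Finset.single_le_sum (f := fun y => u y ^ 2) (fun y _ => sq_nonneg _) (Finset.mem_univ x)
    have hu' : nrm u = 1 := hu
    rw [hu'] at h1
    exact abs_le.1 ((sq_le_one_iff_abs_le_one _).1 h1)
  have hne : {u : V → ℝ | nrm u = 1}.Nonempty := by
    obtain ⟨x⟩ := (inferInstance : Nonempty V)
    refine ⟨Pi.single x 1, ?_⟩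
    show nrm _ = 1
    unfold nrm
    rw [Finset.sum_eq_single x]
    · simp
    · intro y _ hy
      rw [Pi.single_eq_of_ne hy]; norm_num
    · intro h; exact absurd (Finset.mem_univ x) h
  obtain ⟨u, hu, hmin⟩ := hK.exists_isMinOn hne hcq.continuousOn
  refine ⟨u, hu, fun v => ?_⟩
  by_cases hv : v = 0
  · subst hv
    have h1 : nrm (0 : V → ℝ) = 0 := by simp [nrm]
    have h2 : qf M (0 : V → ℝ) = 0 := by simp [qf]
    rw [h1, h2, mul_zero]
  · have hp := nrm_pos hv
    set a := (Real.sqrt (nrm v))⁻¹ with ha
    have hs : 0 < Real.sqrt (nrm v) := Real.sqrt_pos.2 hp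
    have ha2 : a ^ 2 * nrm v = 1 := by
      rw [ha, inv_pow, Real.sq_sqrt hp.le]
      exact inv_mul_cancel₀ hp.ne'
    have hmem : a • v ∈ {u : V → ℝ | nrm u = 1} := by
      show nrm _ = 1
      rw [nrm_smul, ha2]
    have h3 : qf M u ≤ qf M (a • v) := hmin hmem
    rw [qf_smul] at h3
    have h4 := mul_le_mul_of_nonneg_right h3 hp.le
    calc qf M u * nrm v ≤ a ^ 2 * qf M v * nrm v := h4
      _ = (a ^ 2 * nrm v) * qf M v := by ring
      _ = qf M v := by rw [ha2, one_mul]

/-- Feasible matrices. -/
structure Feas (G : SimpleGraph V) (P : Matrix V V ℝ) : Prop where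
  symm : ∀ x y, P x y = P y x
  nonneg : ∀ u, 0 ≤ qf P u
  diag : ∀ x, P x x = 1
  off : ∀ x y, x ≠ y → ¬ G.Adj x y → P x y = 0


omit [DecidableEq V] in
theorem feas_psd {G : SimpleGraph V} {P : Matrix V V ℝ} (hP : Feas G P) : P.PosSemidef :=
  (psd_iff P).2 ⟨hP.symm, hP.nonneg⟩

theorem feas_one (G : SimpleGraph V) : Feas G (1 : Matrix V V ℝ) where
  symm := by
    intro x y
    by_cases hxy : x = y
    · rw [hxy]
    · rw [Matrix.one_apply_ne hxy, Matrix.one_apply_ne (Ne.symm hxy)]
  nonneg := by
    intro u
    rw [qf_one]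
    exact nrm_nonneg u
  diag := fun x => Matrix.one_apply_eq x
  off := fun x y hxy _ => Matrix.one_apply_ne hxy

/-- The perturbation matrix of an edge. -/
def pert (x y : V) : Matrix V V ℝ := Matrix.single x y 1 + Matrix.single y x 1

theorem qf_single (x y : V) (u : V → ℝ) : qf (Matrix.single x y (1 : ℝ)) u = u x * u y := by
  unfold qf
  rw [Finset.sum_eq_single x]
  · rw [Finset.sum_eq_single y]
    · rw [Matrix.single_apply, if_pos ⟨rfl, rfl⟩]; ring
    · intro z _ hz
      rw [Matrix.single_apply, if_neg (fun h => hz h.2.symm)]; ring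
    · intro h; exact absurd (Finset.mem_univ y) h
  · intro z _ hz
    refine Finset.sum_eq_zero fun w _ => ?_
    rw [Matrix.single_apply, if_neg (fun h => hz h.1.symm)]; ring
  · intro h; exact absurd (Finset.mem_univ x) h

theorem qf_pert (x y : V) (u : V → ℝ) : qf (pert x y) u = 2 * (u x * u y) := by
  unfold pert
  rw [qf_add, qf_single, qf_single]
  ring

theorem feas_pert {G : SimpleGraph V} {P : Matrix V V ℝ} (hP : Feas G P) {c : ℝ}
    (hc : ∀ u, c * nrm u ≤ qf P u) {x y : V} (hxy : G.Adj x y) {t : ℝ} (ht : |t| ≤ c) :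
    Feas G (P + t • pert x y) where
  symm := by
    intro a b
    have e : pert x y a b = pert x y b a := by
      simp only [pert, Matrix.add_apply, Matrix.single_apply]
      rw [add_comm]
      congr 1
      · by_cases h : y = a ∧ x = b
        · rw [if_pos h, if_pos ⟨h.2, h.1⟩]
        · rw [if_neg h, if_neg (fun h' => h ⟨h'.2, h'.1⟩)]
      · by_cases h : x = a ∧ y = b
        · rw [if_pos h, if_pos ⟨h.2, h.1⟩]
        · rw [if_neg h, if_neg (fun h' => h ⟨h'.2, h'.1⟩)]
    rw [Matrix.add_apply, Matrix.add_apply, Matrix.smul_apply, Matrix.smul_apply, hP.symm a b, e]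
  nonneg := by
    intro u
    rw [qf_add, qf_smulM, qf_pert]
    have hne : x ≠ y := hxy.ne
    have h1 : u x ^ 2 + u y ^ 2 ≤ nrm u := by
      have : ∑ z ∈ ({x, y} : Finset V), u z ^ 2 ≤ nrm u :=
        Finset.sum_le_sum_of_subset_of_nonneg (Finset.subset_univ _) fun z _ _ => sq_nonneg _
      rwa [Finset.sum_pair hne] at this
    have h2 : |t * (2 * (u x * u y))| ≤ c * nrm u := by
      rw [abs_mul]
      have h3 : |2 * (u x * u y)| ≤ nrm u := by
        refine le_trans ?_ h1
        rw [abs_le]
        constructor
        · nlinarith [sq_nonneg (u x + u y)]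
        · nlinarith [sq_nonneg (u x - u y)]
      exact mul_le_mul ht h3 (abs_nonneg _) (le_trans (abs_nonneg _) ht)
    have h4 := (abs_le.1 h2).1
    linarith [hc u]
  diag := by
    intro z
    have hne : x ≠ y := hxy.ne
    have e : pert x y z z = 0 := by
      simp only [pert, Matrix.add_apply, Matrix.single_apply]
      rw [if_neg (fun h => hne (h.1.trans h.2.symm)), if_neg (fun h => hne (h.2.trans h.1.symm))]
      ring
    rw [Matrix.add_apply, Matrix.smul_apply, e, hP.diag]
    simp
  off := by
    intro a b hab hadj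
    have e : pert x y a b = 0 := by
      simp only [pert, Matrix.add_apply, Matrix.single_apply]
      rw [if_neg (fun h => hadj (by rw [← h.1, ← h.2]; exact hxy)),
        if_neg (fun h => hadj (by rw [← h.1, ← h.2]; exact hxy.symm))]
      ring
    rw [Matrix.add_apply, Matrix.smul_apply, e, hP.off a b hab hadj]
    simp

/-- The set of feasible matrices is compact. -/
theorem isCompact_feas (G : SimpleGraph V) : IsCompact {P : Matrix V V ℝ | Feas G P} := by
  have hc : IsCompact {P : Matrix V V ℝ | ∀ x y, P x y ∈ Set.Icc (-1 : ℝ) 1} := by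
    have h1 := isCompact_univ_pi (fun _ : V =>
      isCompact_univ_pi (fun _ : V => (isCompact_Icc : IsCompact (Set.Icc (-1 : ℝ) 1))))
    have h2 : {P : Matrix V V ℝ | ∀ x y, P x y ∈ Set.Icc (-1 : ℝ) 1} =
        (Set.univ.pi fun _ : V => Set.univ.pi fun _ : V => Set.Icc (-1 : ℝ) 1 :
          Set (V → V → ℝ)) := by
      apply Set.ext
      intro u
      exact ⟨fun hu x _ y _ => hu x y, fun hu x y => hu x (Set.mem_univ x) y (Set.mem_univ y)⟩
    rw [h2]
    exact h1
  have hent : ∀ x y, Continuous (fun P : Matrix V V ℝ => P x y) := fun x y =>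
    continuous_id.matrix_elem x y
  refine hc.of_isClosed_subset ?_ ?_
  · have e : {P : Matrix V V ℝ | Feas G P} =
        ((⋂ x, ⋂ y, {P : Matrix V V ℝ | P x y = P y x}) ∩ (⋂ u, {P : Matrix V V ℝ | 0 ≤ qf P u})) ∩
        ((⋂ x, {P : Matrix V V ℝ | P x x = 1}) ∩
          ⋂ x, ⋂ y, {P : Matrix V V ℝ | x ≠ y → ¬ G.Adj x y → P x y = 0}) := by
      ext P
      simp only [Set.mem_ofPred_eq, Set.mem_inter_iff, Set.mem_iInter]
      constructor
      · rintro ⟨h1, h2, h3, h4⟩
        exact ⟨⟨h1, h2⟩, h3, h4⟩
      · rintro ⟨⟨h1, h2⟩, h3, h4⟩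
        exact ⟨h1, h2, h3, h4⟩
    rw [e]
    refine IsClosed.inter (IsClosed.inter ?_ ?_) (IsClosed.inter ?_ ?_)
    · exact isClosed_iInter fun x => isClosed_iInter fun y => isClosed_eq (hent x y) (hent y x)
    · refine isClosed_iInter fun u => isClosed_le continuous_const ?_
      unfold qf
      exact continuous_finsetSum _ fun x _ => continuous_finsetSum _ fun y _ =>
        (hent x y).mul continuous_const
    · exact isClosed_iInter fun x => isClosed_eq (hent x x) continuous_const
    · refine isClosed_iInter fun x => isClosed_iInter fun y => ?_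
      by_cases h : x ≠ y ∧ ¬ G.Adj x y
      · have e2 : {P : Matrix V V ℝ | x ≠ y → ¬ G.Adj x y → P x y = 0} =
            {P : Matrix V V ℝ | P x y = 0} := by
          ext P
          exact ⟨fun hP => hP h.1 h.2, fun hP _ _ => hP⟩
        rw [e2]
        exact isClosed_eq (hent x y) continuous_const
      · have e2 : {P : Matrix V V ℝ | x ≠ y → ¬ G.Adj x y → P x y = 0} = Set.univ := by
          ext P
          refine ⟨fun _ => Set.mem_univ _, fun _ h1 h2 => absurd ⟨h1, h2⟩ h⟩
        rw [e2]
        exact isClosed_univ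
  · intro P hP x y
    by_cases hxy : x = y
    · subst hxy
      rw [hP.diag]
      exact ⟨by norm_num, le_refl _⟩
    · -- test vectors
      have key : ∀ s : ℝ, s ^ 2 = 1 → 0 ≤ 2 + 2 * s * P x y := by
        intro s hs
        have h := hP.nonneg (fun z => if z = x then 1 else if z = y then s else 0)
        have e : qf P (fun z => if z = x then 1 else if z = y then s else 0) =
            P x x + s * P x y + s * P y x + s ^ 2 * P y y := by
          unfold qf
          have e1 : ∀ z, ∑ w, P z w * ((if z = x then 1 else if z = y then s else 0) *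
              (if w = x then (1 : ℝ) else if w = y then s else 0)) =
              (if z = x then 1 else if z = y then s else 0) * (P z x + s * P z y) := by
            intro z
            have e3 : ∀ w, P z w * ((if z = x then 1 else if z = y then s else 0) *
              (if w = x then (1 : ℝ) else if w = y then s else 0)) =
              (if w = x then (if z = x then 1 else if z = y then s else 0) * P z x else 0) +
              (if w = y then (if z = x then 1 else if z = y then s else 0) * (s * P z y) else 0) := by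
              intro w
              by_cases h1 : w = x
              · subst h1
                rw [if_pos rfl, if_pos rfl, if_neg hxy]
                ring
              · rw [if_neg h1, if_neg h1]
                by_cases h2 : w = y
                · subst h2
                  rw [if_pos rfl, if_pos rfl]
                  ring
                · rw [if_neg h2, if_neg h2]
                  ring
            rw [Finset.sum_congr rfl fun w _ => e3 w, Finset.sum_add_distrib,
              Finset.sum_ite_eq' Finset.univ x, Finset.sum_ite_eq' Finset.univ y,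
              if_pos (Finset.mem_univ _), if_pos (Finset.mem_univ _)]
            ring
          rw [Finset.sum_congr rfl fun z _ => e1 z]
          have e4 : ∀ z, (if z = x then 1 else if z = y then s else 0) * (P z x + s * P z y) =
              (if z = x then (P x x + s * P x y) else 0) +
              (if z = y then s * (P y x + s * P y y) else 0) := by
            intro z
            by_cases h1 : z = x
            · subst h1
              rw [if_pos rfl, if_pos rfl, if_neg hxy]
              ring
            · rw [if_neg h1, if_neg h1]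
              by_cases h2 : z = y
              · subst h2
                rw [if_pos rfl, if_pos rfl]
                ring
              · rw [if_neg h2, if_neg h2]
                ring
          rw [Finset.sum_congr rfl fun z _ => e4 z, Finset.sum_add_distrib,
            Finset.sum_ite_eq' Finset.univ x, Finset.sum_ite_eq' Finset.univ y,
            if_pos (Finset.mem_univ _), if_pos (Finset.mem_univ _)]
          ring
        rw [e, hP.diag, hP.diag, hP.symm y x, hs] at h
        linarith
      have h1 := key 1 (by norm_num)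
      have h2 := key (-1) (by norm_num)
      constructor
      · linarith
      · linarith

/-- derivative at an interior maximum -/
theorem deriv_at_max (τ b c : ℝ) (hc : 0 < c) (q : Polynomial ℝ)
    (h : ∀ t : ℝ, |t| ≤ c → (1 + τ * t + q.eval t * t ^ 2) * Real.exp (b * t) ≤ 1) :
    τ + b = 0 := by
  have hd : HasDerivAt (fun t : ℝ => (1 + τ * t + q.eval t * t ^ 2) * Real.exp (b * t))
      ((τ + (Polynomial.derivative q).eval 0 * 0 ^ 2 + q.eval 0 * (2 * 0)) * Real.exp (b * 0) +
        (1 + τ * 0 + q.eval 0 * 0 ^ 2) * (Real.exp (b * 0) * b)) 0 := by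
    have h1 : HasDerivAt (fun t : ℝ => 1 + τ * t + q.eval t * t ^ 2)
        (τ + (Polynomial.derivative q).eval 0 * 0 ^ 2 + q.eval 0 * (2 * 0)) 0 := by
      have ha : HasDerivAt (fun t : ℝ => 1 + τ * t) τ 0 := by
        have := ((hasDerivAt_id (0 : ℝ)).const_mul τ).const_add 1
        simpa using this
      have hb : HasDerivAt (fun t : ℝ => q.eval t * t ^ 2)
          ((Polynomial.derivative q).eval 0 * 0 ^ 2 + q.eval 0 * (2 * 0)) 0 := by
        have h2 : HasDerivAt (fun t : ℝ => t ^ 2) (2 * 0) (0 : ℝ) := by
          have := hasDerivAt_pow 2 (0 : ℝ)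
          simpa using this
        exact (q.hasDerivAt 0).mul h2
      have := ha.add hb
      rw [← add_assoc] at this
      exact this
    have h3 : HasDerivAt (fun t : ℝ => Real.exp (b * t)) (Real.exp (b * 0) * b) 0 := by
      have h4 : HasDerivAt (fun t : ℝ => b * t) b 0 := by
        have := (hasDerivAt_id (0 : ℝ)).const_mul b
        simpa using this
      exact h4.exp
    exact h1.mul h3
  have hmax : IsLocalMax (fun t : ℝ => (1 + τ * t + q.eval t * t ^ 2) * Real.exp (b * t)) 0 := by
    have hev : ∀ᶠ t : ℝ in nhds 0, |t| ≤ c := by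
      have : Metric.closedBall (0 : ℝ) c ∈ nhds (0 : ℝ) := Metric.closedBall_mem_nhds 0 hc
      filter_upwards [this] with t ht
      rwa [Metric.mem_closedBall, dist_zero_right, Real.norm_eq_abs] at ht
    filter_upwards [hev] with t ht
    have := h t ht
    simpa using this
  have := hmax.hasDerivAt_eq_zero hd
  simp at this
  linarith

/-- `G` or its complement has a certificate of level `T` as soon as `T ^ 2 < n`. -/
theorem cert_or {T : ℝ} (hT : 1 < T) {V : Type} [Fintype V] [DecidableEq V] (G : SimpleGraph V)
    (h : T ^ 2 < Fintype.card V) : Cert T G ∨ Cert T Gᶜ := by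
  classical
  have hT0 : 0 < T := by linarith
  obtain ⟨n, hn⟩ : ∃ n : ℝ, n = (Fintype.card V : ℝ) := ⟨_, rfl⟩
  rw [← hn] at h
  have hn0 : 0 < n := lt_of_le_of_lt (sq_nonneg T) h
  have hne : Nonempty V := by
    rw [hn] at hn0
    exact Fintype.card_pos_iff.1 (by exact_mod_cast hn0)
  obtain ⟨ε, hε⟩ : ∃ ε : ℝ, ε = n / T - T := ⟨_, rfl⟩
  have hε0 : 0 < ε := by
    rw [hε, sub_pos, lt_div_iff₀ hT0]
    nlinarith
  -- the maximiser
  have hcont : Continuous (fun P : Matrix V V ℝ => P.det * Real.exp (qf P 1 / ε)) := by
    refine (Continuous.matrix_det continuous_id).mul (Real.continuous_exp.comp ?_)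
    refine Continuous.div_const ?_ _
    unfold qf
    exact continuous_finsetSum _ fun x _ => continuous_finsetSum _ fun y _ =>
      (continuous_id.matrix_elem x y).mul continuous_const
  obtain ⟨P, hP, hmax⟩ := (isCompact_feas G).exists_isMaxOn ⟨1, feas_one G⟩ hcont.continuousOn
  have hP : Feas G P := hP
  have hdet : 0 < P.det := by
    have h1 : (1 : Matrix V V ℝ).det * Real.exp (qf 1 1 / ε) ≤ P.det * Real.exp (qf P 1 / ε) :=
      hmax (feas_one G)
    rw [Matrix.det_one, one_mul] at h1
    have h2 : 0 < P.det * Real.exp (qf P 1 / ε) := lt_of_lt_of_le (Real.exp_pos _) h1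
    exact pos_of_mul_pos_left h2 (Real.exp_pos _).le
  have hPs := feas_psd hP
  have hPD : P.PosDef := hPs.posDef_iff_det_ne_zero.2 hdet.ne'
  -- the least eigenvalue
  obtain ⟨u, hu1, hu2⟩ := sphere_min P
  have hc0 : 0 < qf P u := by
    have hu0 : u ≠ 0 := by
      intro h0
      rw [h0] at hu1
      simp [nrm] at hu1
    have := hPD.dotProduct_mulVec_pos hu0
    rwa [star_trivial, qf_eq] at this
  have hunit : IsUnit P.det := hdet.ne'.isUnit
  -- the stationarity condition
  have hstat : ∀ x y, G.Adj x y → P⁻¹ x y = -(1 / ε) := by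
    intro x y hxy
    have hτ : ∀ t : ℝ, |t| ≤ qf P u →
        (1 + Matrix.trace (P⁻¹ * pert x y) * t + (Matrix.det
          (1 + (Polynomial.X : Polynomial ℝ) • (P⁻¹ * pert x y).map Polynomial.C)).divX.divX.eval t *
          t ^ 2) * Real.exp (2 / ε * t) ≤ 1 := by
      intro t ht
      have hf := feas_pert hP hu2 hxy ht
      have h1 : (P + t • pert x y).det * Real.exp (qf (P + t • pert x y) 1 / ε) ≤
          P.det * Real.exp (qf P 1 / ε) := hmax hf
      have h2 : P + t • pert x y = P * (1 + t • (P⁻¹ * pert x y)) := by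
        rw [Matrix.mul_add, Matrix.mul_one, Matrix.mul_smul, ← Matrix.mul_assoc,
          Matrix.mul_nonsing_inv P hunit, Matrix.one_mul]
      have h3 : qf (P + t • pert x y) 1 / ε = qf P 1 / ε + 2 / ε * t := by
        rw [qf_add, qf_smulM, qf_pert]
        simp only [Pi.one_apply]
        ring
      rw [h3, h2, Matrix.det_mul, Real.exp_add, Matrix.det_one_add_smul] at h1
      have h4 : 0 < P.det * Real.exp (qf P 1 / ε) := mul_pos hdet (Real.exp_pos _)
      have h5 : P.det * Real.exp (qf P 1 / ε) *
          ((1 + Matrix.trace (P⁻¹ * pert x y) * t + (Matrix.det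
          (1 + (Polynomial.X : Polynomial ℝ) • (P⁻¹ * pert x y).map Polynomial.C)).divX.divX.eval t *
          t ^ 2) * Real.exp (2 / ε * t)) ≤ P.det * Real.exp (qf P 1 / ε) * 1 := by
        rw [mul_one]
        refine le_trans (le_of_eq ?_) h1
        ring
      exact le_of_mul_le_mul_left h5 h4
    have h6 := deriv_at_max _ _ _ hc0 _ hτ
    have h7 : Matrix.trace (P⁻¹ * pert x y) = P⁻¹ y x + P⁻¹ x y := by
      unfold pert
      rw [Matrix.mul_add, Matrix.trace_add]
      have h8 : ∀ a b : V, Matrix.trace (P⁻¹ * Matrix.single a b 1) = P⁻¹ b a := by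
        intro a b
        rw [Matrix.trace_mul_comm]
        simp only [Matrix.trace, Matrix.diag_apply, Matrix.mul_apply, Matrix.single_apply]
        rw [Finset.sum_eq_single a]
        · rw [Finset.sum_eq_single b]
          · simp
          · intro z _ hz
            rw [if_neg (fun hh => hz hh.2.symm)]; ring
          · intro hh; exact absurd (Finset.mem_univ b) hh
        · intro z _ hz
          refine Finset.sum_eq_zero fun w _ => ?_
          rw [if_neg (fun hh => hz hh.1.symm)]; ring
        · intro hh; exact absurd (Finset.mem_univ a) hh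
      rw [h8, h8]
    have h9 : P⁻¹ y x = P⁻¹ x y := by
      have := hPs.inv.isHermitian.apply x y
      simpa using this
    rw [h7, h9] at h6
    have : P⁻¹ x y = -(2 / ε) / 2 := by linarith
    rw [this]; ring
  -- the dual matrix
  set L : Matrix V V ℝ := Matrix.of fun x y => 1 + ε * P⁻¹ x y with hL
  have hLe : ∀ x y, L x y = 1 + ε * P⁻¹ x y := fun x y => rfl
  have hLadj : ∀ x y, G.Adj x y → L x y = 0 := by
    intro x y hxy
    rw [hLe, hstat x y hxy]
    field_simp
    ring
  have hinvs : ∀ x y, P⁻¹ x y = P⁻¹ y x := by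
    intro x y
    have := hPs.inv.isHermitian.apply y x
    simpa using this
  have hLq : ∀ v : V → ℝ, qf L v = (∑ x, v x) ^ 2 + ε * qf P⁻¹ v := by
    intro v
    unfold qf
    rw [sq, Finset.sum_mul_sum, Finset.mul_sum, ← Finset.sum_add_distrib]
    refine Finset.sum_congr rfl fun x _ => ?_
    rw [Finset.mul_sum, ← Finset.sum_add_distrib]
    refine Finset.sum_congr rfl fun y _ => ?_
    rw [hLe]; ring
  have hinvq : ∀ v : V → ℝ, 0 ≤ qf P⁻¹ v := ((psd_iff _).1 hPs.inv).2
  have htrace : ∑ x, L x x = qf P 1 + ε * n := by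
    have h1 : ∀ x, L x x = ∑ y, L x y * P x y := by
      intro x
      rw [Finset.sum_eq_single x]
      · rw [hP.diag, mul_one]
      · intro y _ hy
        by_cases hadj : G.Adj x y
        · rw [hLadj x y hadj, zero_mul]
        · rw [hP.off x y (Ne.symm hy) hadj, mul_zero]
      · intro hh; exact absurd (Finset.mem_univ x) hh
    rw [Finset.sum_congr rfl fun x _ => h1 x]
    have h2 : ∀ x, ∑ y, P⁻¹ x y * P x y = 1 := by
      intro x
      have h3 : (P⁻¹ * P) x x = 1 := by
        rw [Matrix.nonsing_inv_mul P hunit, Matrix.one_apply_eq]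
      rw [Matrix.mul_apply] at h3
      rw [← h3]
      exact Finset.sum_congr rfl fun y _ => by rw [hP.symm x y]
    have h4 : ∀ x, ∑ y, L x y * P x y = (∑ y, P x y) + ε * 1 := by
      intro x
      rw [← h2 x, Finset.mul_sum, ← Finset.sum_add_distrib]
      refine Finset.sum_congr rfl fun y _ => ?_
      rw [hLe]; ring
    rw [Finset.sum_congr rfl fun x _ => h4 x, Finset.sum_add_distrib]
    congr 1
    · unfold qf
      simp
    · rw [Finset.sum_const, Finset.card_univ, nsmul_eq_mul, ← hn]
      ring
  by_cases hcase : n * T ≤ qf P 1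
  · left
    refine Cert.of_psd hT P hPs hP.diag hP.off 1 ?_ ?_
    · intro h0
      obtain ⟨x⟩ := hne
      have := congrFun h0 x
      simp at this
    · rw [qf_eq]
      have : (1 : V → ℝ) ⬝ᵥ 1 = n := by
        simp [dotProduct, hn]
      rw [this]
      linarith
  · right
    push Not at hcase
    have htr : T * (∑ x, L x x) ≤ n ^ 2 := by
      rw [htrace]
      have h1 : T * ε = n - T ^ 2 := by
        rw [hε]
        field_simp
      have h2 : T * (qf P 1 + ε * n) = T * qf P 1 + (T * ε) * n := by ring
      rw [h2, h1]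
      nlinarith
    have hdiagpos : ∀ x, 0 < L x x := by
      intro x
      rw [hLe]
      have : 0 < P⁻¹ x x := hPD.inv.diag_pos
      positivity
    have hsq : ∀ x, 0 < Real.sqrt (L x x) := fun x => Real.sqrt_pos.2 (hdiagpos x)
    refine Cert.of_psd hT (Matrix.of fun x y => L x y / (Real.sqrt (L x x) * Real.sqrt (L y y)))
      ?_ ?_ ?_ (fun x => Real.sqrt (L x x)) ?_ ?_
    · rw [psd_iff]
      constructor
      · intro x y
        simp only [Matrix.of_apply]
        rw [hLe x y, hLe y x, hinvs x y, mul_comm (Real.sqrt (L x x))]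
      · intro v
        have e : qf (Matrix.of fun x y => L x y / (Real.sqrt (L x x) * Real.sqrt (L y y))) v =
            qf L (fun x => v x / Real.sqrt (L x x)) := by
          unfold qf
          refine Finset.sum_congr rfl fun x _ => Finset.sum_congr rfl fun y _ => ?_
          simp only [Matrix.of_apply]
          have h1 := (hsq x).ne'
          have h2 := (hsq y).ne'
          field_simp
        rw [e, hLq]
        exact add_nonneg (sq_nonneg _) (mul_nonneg hε0.le (hinvq _))
    · intro x
      simp only [Matrix.of_apply]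
      rw [Real.mul_self_sqrt (hdiagpos x).le, div_self (hdiagpos x).ne']
    · intro x y hxy hadj
      simp only [Matrix.of_apply]
      rw [SimpleGraph.compl_adj, not_and_not_right] at hadj
      rw [hLadj x y (hadj hxy), zero_div]
    · intro h0
      obtain ⟨x⟩ := hne
      exact (hsq x).ne' (congrFun h0 x)
    · rw [qf_eq]
      have e1 : (fun x => Real.sqrt (L x x)) ⬝ᵥ (fun x => Real.sqrt (L x x)) = ∑ x, L x x := by
        simp only [dotProduct]
        exact Finset.sum_congr rfl fun x _ => Real.mul_self_sqrt (hdiagpos x).le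
      have e2 : qf (Matrix.of fun x y => L x y / (Real.sqrt (L x x) * Real.sqrt (L y y)))
          (fun x => Real.sqrt (L x x)) = qf L 1 := by
        unfold qf
        refine Finset.sum_congr rfl fun x _ => Finset.sum_congr rfl fun y _ => ?_
        simp only [Matrix.of_apply, Pi.one_apply]
        have h1 := (hsq x).ne'
        have h2 := (hsq y).ne'
        field_simp
      rw [e1, e2, hLq]
      have e3 : ∑ x : V, (1 : V → ℝ) x = n := by
        simp [hn]
      rw [e3]
      have := mul_nonneg hε0.le (hinvq 1)
      linarith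

end LogDet

end Pool.Agent.GallaiRamsey
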