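import Pool.Agent.GallaiRamsey.Cert

/-! Fractional cliques and their behaviour under the categorical product (Zhu's theorem). -/

set_option autoImplicit false

namespace Pool.Agent.GallaiRamsey

/-- `g` is a fractional clique of `G`. -/
def IsFC {V : Type} (G : SimpleGraph V) (g : V → ℝ) : Prop :=
  (∀ v, 0 ≤ g v) ∧ ∀ I : Finset V, G.IsIndepSet I → ∑ v ∈ I, g v ≤ 1

/-- `G` has a fractional clique of total weight larger than `b`. -/
def Frac (b : ℝ) {V : Type} [Fintype V] (G : SimpleGraph V) : Prop :=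
  ∃ g : V → ℝ, IsFC G g ∧ b < ∑ v, g v

theorem IsFC.le_one {V : Type} {G : SimpleGraph V} {g : V → ℝ} (h : IsFC G g) (v : V) :
    g v ≤ 1 := by
  have := h.2 {v} (by simp [SimpleGraph.IsIndepSet])
  simpa using this

theorem exists_max_FC {V : Type} [Fintype V] (G : SimpleGraph V) :
    ∃ g : V → ℝ, IsFC G g ∧ ∀ g' : V → ℝ, IsFC G g' → ∑ v, g' v ≤ ∑ v, g v := by
  have hcomp : IsCompact {g : V → ℝ | IsFC G g} := by
    refine IsCompact.of_isClosed_subset (isCompact_Icc (a := (0 : V → ℝ)) (b := 1)) ?_ ?_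
    · have : {g : V → ℝ | IsFC G g} = (⋂ v, {g : V → ℝ | 0 ≤ g v}) ∩
          ⋂ I : Finset V, ⋂ _ : G.IsIndepSet I, {g : V → ℝ | ∑ v ∈ I, g v ≤ 1} := by
        ext g
        simp [IsFC]
      rw [this]
      refine IsClosed.inter (isClosed_iInter fun v => ?_)
        (isClosed_iInter fun I => isClosed_iInter fun _ => ?_)
      · exact isClosed_le continuous_const (continuous_apply v)
      · exact isClosed_le (continuous_finsetSum _ fun v _ => continuous_apply v) continuous_const
    · intro g hg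
      exact ⟨fun v => hg.1 v, fun v => hg.le_one v⟩
  have hne : {g : V → ℝ | IsFC G g}.Nonempty := ⟨0, by simp [IsFC]⟩
  obtain ⟨g, hg, hmax⟩ := hcomp.exists_isMaxOn hne
    (f := fun g : V → ℝ => ∑ v, g v)
    (continuous_finsetSum _ fun v _ => continuous_apply v).continuousOn
  exact ⟨g, hg, fun g' hg' => hmax hg'⟩

open Classical in
/-- the closed neighbourhood of a set of vertices -/
noncomputable def nbh {V : Type} [Fintype V] (G : SimpleGraph V) (I : Finset V) : Finset V :=
  Finset.univ.filter fun v => v ∈ I ∨ ∃ w ∈ I, G.Adj w v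

open Classical in
theorem expand {V : Type} [Fintype V] {G : SimpleGraph V} {g : V → ℝ} (hg : IsFC G g)
    (hmax : ∀ g' : V → ℝ, IsFC G g' → ∑ v, g' v ≤ ∑ v, g v) (I : Finset V)
    (hI : G.IsIndepSet I) : (∑ v, g v) * ∑ v ∈ I, g v ≤ ∑ v ∈ nbh G I, g v := by
  have hsplit : ∑ v, g v = ∑ v ∈ nbh G I, g v + ∑ v ∈ (nbh G I)ᶜ, g v :=
    (Finset.sum_add_sum_compl _ _).symm
  have hm1 : ∑ v ∈ I, g v ≤ 1 := hg.2 I hI
  -- independent sets outside the closed neighbourhood
  have hout : ∀ J : Finset V, G.IsIndepSet J → J ⊆ (nbh G I)ᶜ →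
      ∑ v ∈ J, g v ≤ 1 - ∑ v ∈ I, g v := by
    intro J hJ hJR
    have hdisj : Disjoint I J := by
      rw [Finset.disjoint_left]
      intro v hvI hvJ
      have := hJR hvJ
      rw [Finset.mem_compl] at this
      exact this (by simp [nbh, hvI])
    have hind : G.IsIndepSet (↑(I ∪ J) : Set V) := by
      intro x hx y hy hxy hadj
      rw [Finset.mem_coe, Finset.mem_union] at hx hy
      rcases hx with hx | hx <;> rcases hy with hy | hy
      · exact hI hx hy hxy hadj
      · have := hJR hy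
        rw [Finset.mem_compl] at this
        exact this (by
          simp only [nbh, Finset.mem_filter, Finset.mem_univ, true_and]
          exact Or.inr ⟨x, hx, hadj⟩)
      · have := hJR hx
        rw [Finset.mem_compl] at this
        exact this (by
          simp only [nbh, Finset.mem_filter, Finset.mem_univ, true_and]
          exact Or.inr ⟨y, hy, hadj.symm⟩)
      · exact hJ hx hy hxy hadj
    have := hg.2 (I ∪ J) hind
    rw [Finset.sum_union hdisj] at this
    linarith
  have hR : ∑ v ∈ (nbh G I)ᶜ, g v ≤ (∑ v, g v) * (1 - ∑ v ∈ I, g v) := by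
    rcases hm1.lt_or_eq with hlt | heq
    · have hpos : 0 < 1 - ∑ v ∈ I, g v := by linarith
      have hFC : IsFC G (fun v => if v ∈ (nbh G I)ᶜ then g v / (1 - ∑ v ∈ I, g v) else 0) := by
        refine ⟨fun v => ?_, fun J hJ => ?_⟩
        · dsimp only
          split_ifs
          · exact div_nonneg (hg.1 v) hpos.le
          · exact le_rfl
        · rw [← Finset.sum_filter, ← Finset.sum_div, div_le_one hpos]
          refine hout _ ?_ ?_
          · intro x hx y hy hxy
            exact hJ (Finset.mem_of_mem_filter _ hx) (Finset.mem_of_mem_filter _ hy) hxy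
          · intro v hv
            exact (Finset.mem_filter.1 hv).2
      have := hmax _ hFC
      rw [← Finset.sum_filter, ← Finset.sum_div] at this
      have h2 : Finset.univ.filter (fun v => v ∈ (nbh G I)ᶜ) = (nbh G I)ᶜ := by
        ext v; simp
      rw [h2, div_le_iff₀ hpos] at this
      exact this
    · have hz : ∑ v ∈ (nbh G I)ᶜ, g v = 0 := by
        refine Finset.sum_eq_zero fun v hv => ?_
        have h1 := hout {v} (by simp [SimpleGraph.IsIndepSet]) (by simpa using hv)
        rw [Finset.sum_singleton, heq, sub_self] at h1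
        exact le_antisymm h1 (hg.1 v)
      rw [hz, heq]
      simp
  nlinarith [hR, hsplit]

open Classical in
/-- Zhu's theorem in primal form. -/
theorem zhu {V V' : Type} [Fintype V] [Fintype V'] {G : SimpleGraph V} {G' : SimpleGraph V'}
    {g : V → ℝ} {g' : V' → ℝ} (hg : IsFC G g) (hg' : IsFC G' g')
    (hmax : ∀ f : V → ℝ, IsFC G f → ∑ v, f v ≤ ∑ v, g v)
    (hmax' : ∀ f : V' → ℝ, IsFC G' f → ∑ v, f v ≤ ∑ v, g' v)
    (U : Finset (V × V')) (hU : (tensorGraph G G').IsIndepSet U) :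
    ∃ A B : ℝ, 0 ≤ A ∧ 0 ≤ B ∧ ∑ p ∈ U, g p.1 * g' p.2 = A + B ∧
      (∑ v, g v) * A + (∑ v, g' v) * B ≤ (∑ v, g v) * ∑ v, g' v := by
  let A : Finset (V × V') := U.filter fun p => ∀ x', G.Adj p.1 x' → (x', p.2) ∉ U
  let B : Finset (V × V') := U.filter fun p => ¬ ∀ x', G.Adj p.1 x' → (x', p.2) ∉ U
  let NA : Finset (V × V') := Finset.univ.filter fun p => p ∈ A ∨ ∃ x, (x, p.2) ∈ A ∧ G.Adj x p.1
  let NB : Finset (V × V') := Finset.univ.filter fun p => p ∈ B ∨ ∃ u, (p.1, u) ∈ B ∧ G'.Adj u p.2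
  have memA : ∀ x u, (x, u) ∈ A ↔ (x, u) ∈ U ∧ ∀ x', G.Adj x x' → (x', u) ∉ U := by
    intro x u; simp [A]
  have memB : ∀ x u, (x, u) ∈ B ↔ (x, u) ∈ U ∧ ∃ x', G.Adj x x' ∧ (x', u) ∈ U := by
    intro x u; simp [B]
  have hnn : ∀ p : V × V', 0 ≤ g p.1 * g' p.2 := fun p => mul_nonneg (hg.1 _) (hg'.1 _)
  refine ⟨∑ p ∈ A, g p.1 * g' p.2, ∑ p ∈ B, g p.1 * g' p.2,
    Finset.sum_nonneg fun p _ => hnn p, Finset.sum_nonneg fun p _ => hnn p,
    (Finset.sum_filter_add_sum_filter_not U _ _).symm, ?_⟩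
  -- sums over sets of pairs as iterated sums
  have ind : ∀ S : Finset (V × V'), ∑ p ∈ S, g p.1 * g' p.2 =
      ∑ p : V × V', if p ∈ S then g p.1 * g' p.2 else 0 := by
    intro S
    rw [← Finset.sum_filter]
    congr 1
    ext p; simp
  have row : ∀ S : Finset (V × V'), ∑ p ∈ S, g p.1 * g' p.2 =
      ∑ u, g' u * ∑ x ∈ Finset.univ.filter (fun x => (x, u) ∈ S), g x := by
    intro S
    rw [ind, Fintype.sum_prod_type, Finset.sum_comm]
    refine Finset.sum_congr rfl fun u _ => ?_
    rw [Finset.sum_filter, Finset.mul_sum]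
    refine Finset.sum_congr rfl fun x _ => ?_
    split_ifs <;> ring
  have colm : ∀ S : Finset (V × V'), ∑ p ∈ S, g p.1 * g' p.2 =
      ∑ x, g x * ∑ u ∈ Finset.univ.filter (fun u => (x, u) ∈ S), g' u := by
    intro S
    rw [ind, Fintype.sum_prod_type]
    refine Finset.sum_congr rfl fun x _ => ?_
    rw [Finset.sum_filter, Finset.mul_sum]
    refine Finset.sum_congr rfl fun u _ => ?_
    split_ifs <;> ring
  have hA : (∑ v, g v) * ∑ p ∈ A, g p.1 * g' p.2 ≤ ∑ p ∈ NA, g p.1 * g' p.2 := by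
    rw [row A, row NA, Finset.mul_sum]
    refine Finset.sum_le_sum fun u _ => ?_
    have hind : G.IsIndepSet (↑(Finset.univ.filter (fun x => (x, u) ∈ A)) : Set V) := by
      intro x hx y hy hxy hadj
      simp only [Finset.coe_filter, Finset.mem_univ, true_and, Set.mem_ofPred_eq] at hx hy
      exact ((memA x u).1 hx).2 y hadj ((memA y u).1 hy).1
    have h := expand hg hmax _ hind
    have hnb : nbh G (Finset.univ.filter (fun x => (x, u) ∈ A)) =
        Finset.univ.filter (fun x => (x, u) ∈ NA) := by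
      ext x
      simp [nbh, NA]
    rw [hnb] at h
    calc (∑ v, g v) * (g' u * ∑ x ∈ Finset.univ.filter (fun x => (x, u) ∈ A), g x)
        = g' u * ((∑ v, g v) * ∑ x ∈ Finset.univ.filter (fun x => (x, u) ∈ A), g x) := by ring
      _ ≤ _ := mul_le_mul_of_nonneg_left h (hg'.1 u)
  have hB : (∑ v, g' v) * ∑ p ∈ B, g p.1 * g' p.2 ≤ ∑ p ∈ NB, g p.1 * g' p.2 := by
    rw [colm B, colm NB, Finset.mul_sum]
    refine Finset.sum_le_sum fun x _ => ?_
    have hind : G'.IsIndepSet (↑(Finset.univ.filter (fun u => (x, u) ∈ B)) : Set V') := by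
      intro u hu v hv huv hadj
      simp only [Finset.coe_filter, Finset.mem_univ, true_and, Set.mem_ofPred_eq] at hu hv
      obtain ⟨x', hx', hx'U⟩ := ((memB x u).1 hu).2
      have hxv := ((memB x v).1 hv).1
      have hne : ((x', u) : V × V') ≠ (x, v) := by
        intro h
        exact hadj.ne (congrArg Prod.snd h)
      exact hU hx'U hxv hne ⟨hx'.symm, hadj⟩
    have h := expand hg' hmax' _ hind
    have hnb : nbh G' (Finset.univ.filter (fun u => (x, u) ∈ B)) =
        Finset.univ.filter (fun u => (x, u) ∈ NB) := by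
      ext u
      simp [nbh, NB]
    rw [hnb] at h
    calc (∑ v, g' v) * (g x * ∑ u ∈ Finset.univ.filter (fun u => (x, u) ∈ B), g' u)
        = g x * ((∑ v, g' v) * ∑ u ∈ Finset.univ.filter (fun u => (x, u) ∈ B), g' u) := by ring
      _ ≤ _ := mul_le_mul_of_nonneg_left h (hg.1 x)
  have hdisj : Disjoint NA NB := by
    rw [Finset.disjoint_left]
    rintro ⟨y, v⟩ hNA hNB
    simp only [NA, NB, Finset.mem_filter, Finset.mem_univ, true_and] at hNA hNB
    rcases hNA with hNA | ⟨x, hxA, hxy⟩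
    · rcases hNB with hNB | ⟨u, huB, huv⟩
      · obtain ⟨x', h1, h2⟩ := ((memB y v).1 hNB).2
        exact ((memA y v).1 hNA).2 x' h1 h2
      · -- (y, v) ∈ U, (y, u) ∈ B, u ~ v
        obtain ⟨x', h1, h2⟩ := ((memB y u).1 huB).2
        have hne : ((x', u) : V × V') ≠ (y, v) := fun h => huv.ne (congrArg Prod.snd h)
        exact hU h2 ((memA y v).1 hNA).1 hne ⟨h1.symm, huv⟩
    · rcases hNB with hNB | ⟨u, huB, huv⟩
      · exact ((memA x v).1 hxA).2 y hxy ((memB y v).1 hNB).1
      · have hne : ((x, v) : V × V') ≠ (y, u) := fun h => hxy.ne (congrArg Prod.fst h)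
        exact hU ((memA x v).1 hxA).1 ((memB y u).1 huB).1 hne ⟨hxy, huv.symm⟩
  have htot : ∑ p ∈ NA, g p.1 * g' p.2 + ∑ p ∈ NB, g p.1 * g' p.2 ≤
      (∑ v, g v) * ∑ v, g' v := by
    rw [← Finset.sum_union hdisj, Finset.sum_mul_sum, ← Fintype.sum_prod_type']
    exact Finset.sum_le_sum_of_subset_of_nonneg (Finset.subset_univ _) fun p _ _ => hnn p
  linarith

theorem Frac.tensor {b : ℝ} (hb : 0 ≤ b) {V V' : Type} [Fintype V] [Fintype V']
    {G : SimpleGraph V} {G' : SimpleGraph V'} (h : Frac b G) (h' : Frac b G') :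
    Frac b (tensorGraph G G') := by
  obtain ⟨f, hf, hfb⟩ := h
  obtain ⟨f', hf', hfb'⟩ := h'
  obtain ⟨g, hg, hmax⟩ := exists_max_FC G
  obtain ⟨g', hg', hmax'⟩ := exists_max_FC G'
  have hgb : b < ∑ v, g v := hfb.trans_le (hmax f hf)
  have hgb' : b < ∑ v, g' v := hfb'.trans_le (hmax' f' hf')
  obtain ⟨a, ha⟩ : ∃ a : ℝ, a = ∑ v, g v := ⟨_, rfl⟩
  obtain ⟨a', ha'⟩ : ∃ a' : ℝ, a' = ∑ v, g' v := ⟨_, rfl⟩
  rw [← ha] at hgb
  rw [← ha'] at hgb'
  have ha0 : 0 < a := by linarith
  have ha0' : 0 < a' := by linarith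
  have hM : 0 < max a a' := lt_max_of_lt_left ha0
  refine ⟨fun p => g p.1 * g' p.2 / max a a', ⟨fun p => ?_, fun U hU => ?_⟩, ?_⟩
  · exact div_nonneg (mul_nonneg (hg.1 _) (hg'.1 _)) hM.le
  · obtain ⟨A, B, hA, hB, hsum, hle⟩ := zhu hg hg' hmax hmax' U hU
    rw [← ha, ← ha'] at hle
    rw [← Finset.sum_div, div_le_one hM, hsum]
    rcases le_total a a' with h | h
    · rw [max_eq_right h]
      have h1 : a * (A + B) ≤ a * a' := by nlinarith
      exact le_of_mul_le_mul_left h1 ha0
    · rw [max_eq_left h]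
      have h1 : a' * (A + B) ≤ a' * a := by nlinarith
      exact le_of_mul_le_mul_left h1 ha0'
  · have htot : ∑ p : V × V', g p.1 * g' p.2 / max a a' = a * a' / max a a' := by
      rw [← Finset.sum_div, ha, ha', Finset.sum_mul_sum, ← Fintype.sum_prod_type']
    rw [htot, lt_div_iff₀ hM]
    rcases le_total a a' with h | h
    · rw [max_eq_right h]
      exact mul_lt_mul_of_pos_right hgb ha0'
    · rw [max_eq_left h, mul_comm a a']
      exact mul_lt_mul_of_pos_right hgb' ha0

/-- If `m` independent sets cover every vertex of `Z` at least twice, then graphs mapping to `Z`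
have no fractional clique of weight more than `m / 2`. -/
theorem Frac.noHom {m : ℕ} {V Z : Type} [Fintype V] {G : SimpleGraph V} {H : SimpleGraph Z}
    (h : Frac ((m : ℝ) / 2) G) (S : Fin m → Z → Prop)
    (hS : ∀ i z w, S i z → S i w → ¬ H.Adj z w)
    (hcov : ∀ z, ∃ i j, i ≠ j ∧ S i z ∧ S j z) (φ : G →g H) : False := by
  classical
  obtain ⟨g, hg, hb⟩ := h
  have h1 : ∀ i, ∑ v ∈ Finset.univ.filter (fun v => S i (φ v)), g v ≤ 1 := by
    intro i
    refine hg.2 _ ?_
    intro x hx y hy _ hadj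
    simp only [Finset.coe_filter, Finset.mem_univ, true_and, Set.mem_ofPred_eq] at hx hy
    exact hS i _ _ hx hy (φ.map_adj hadj)
  have h2 : ∑ i : Fin m, ∑ v ∈ Finset.univ.filter (fun v => S i (φ v)), g v ≤ m := by
    calc _ ≤ ∑ i : Fin m, (1 : ℝ) := Finset.sum_le_sum fun i _ => h1 i
      _ = m := by simp
  have h3 : 2 * ∑ v, g v ≤
      ∑ i : Fin m, ∑ v ∈ Finset.univ.filter (fun v => S i (φ v)), g v := by
    simp_rw [Finset.sum_filter]
    rw [Finset.sum_comm, Finset.mul_sum]
    refine Finset.sum_le_sum fun v _ => ?_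
    obtain ⟨i, j, hij, hi, hj⟩ := hcov (φ v)
    calc 2 * g v = ∑ l ∈ ({i, j} : Finset (Fin m)), (if S l (φ v) then g v else 0) := by
          rw [Finset.sum_pair hij, if_pos hi, if_pos hj]; ring
      _ ≤ ∑ l, (if S l (φ v) then g v else 0) :=
          Finset.sum_le_sum_of_subset_of_nonneg (Finset.subset_univ _) fun l _ _ => by
            split_ifs
            · exact hg.1 v
            · exact le_rfl
  linarith

/-- A graph without large independent sets has a fractional clique of large weight. -/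
theorem Frac.of_indep {b : ℝ} {V : Type} [Fintype V] {G : SimpleGraph V} (a : ℕ) (ha : 0 < a)
    (h : ∀ I : Finset V, G.IsIndepSet I → I.card ≤ a) (hb : b * a < Fintype.card V) :
    Frac b G := by
  have ha' : (0 : ℝ) < a := by exact_mod_cast ha
  refine ⟨fun _ => 1 / a, ⟨fun _ => by positivity, fun I hI => ?_⟩, ?_⟩
  · rw [Finset.sum_const, nsmul_eq_mul, mul_one_div, div_le_one ha']
    exact_mod_cast h I hI
  · rw [Finset.sum_const, nsmul_eq_mul, mul_one_div, lt_div_iff₀ ha', Finset.card_univ]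
    exact hb

/-- A large clique is a fractional clique of large weight. -/
theorem Frac.of_clique {b : ℝ} {V : Type} [Fintype V] {G : SimpleGraph V} (S : Finset V)
    (hS : G.IsClique S) (hb : b < S.card) : Frac b G := by
  classical
  refine ⟨fun v => if v ∈ S then 1 else 0, ⟨fun v => ?_, fun I hI => ?_⟩, ?_⟩
  · dsimp only; split_ifs <;> norm_num
  · rw [← Finset.sum_filter, Finset.sum_const, nsmul_eq_mul, mul_one]
    have : (I.filter (· ∈ S)).card ≤ 1 := by
      rw [Finset.card_le_one]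
      intro x hx y hy
      by_contra hne
      rw [Finset.mem_filter] at hx hy
      exact hI (Finset.mem_coe.2 hx.1) (Finset.mem_coe.2 hy.1) hne (hS hx.2 hy.2 hne)
    exact_mod_cast this
  · simpa using hb

end Pool.Agent.GallaiRamsey
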